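import Pool.Agent.Results.MP_fb3fae_co.AllTriangles

set_option autoImplicit false

namespace Pool.Agent.Y750.TR.Eight

open Module
open Pool.Agent.Results.MP_fb3fae_co.AllTriangles (E3 IsConvexPolyhedron IsTwoFace pt dist_pt
  mem_hull_of_max verts mem_verts span_verts face_eq)

/-- the sign -/
def sg (b : Bool) : ℝ := if b then 1 else -1

lemma sg_or (b : Bool) : sg b = 1 ∨ sg b = -1 := by
  cases b <;> simp [sg]

lemma sg_eq (b b' : Bool) (h : sg b * sg b' = 1) : b = b' := by
  cases b <;> cases b' <;> simp [sg] at h ⊢ <;> norm_num at h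

/-- the eight triangles -/
noncomputable def tri (h z r : ℝ) (s : Bool × Bool × Bool) : Set E3 :=
  convexHull ℝ {pt 0 0 (sg s.1 * h), pt (sg s.2.1 * r) 0 z, pt 0 (sg s.2.2 * r) (-z)}

/-- the supporting functional -/
noncomputable def fn (h z r e d g : ℝ) : E3 →L[ℝ] ℝ :=
  (d * (h - e * z) / r) • (EuclideanSpace.proj (0 : Fin 3) : E3 →L[ℝ] ℝ) +
  (g * (h + e * z) / r) • (EuclideanSpace.proj (1 : Fin 3) : E3 →L[ℝ] ℝ) +
  e • (EuclideanSpace.proj (2 : Fin 3) : E3 →L[ℝ] ℝ)

lemma fn_pt (h z r e d g x y w : ℝ) :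
    fn h z r e d g (pt x y w) = d * (h - e * z) / r * x + g * (h + e * z) / r * y + e * w := by
  simp [fn, pt]

lemma sq_sg (b : Bool) : sg b * sg b = 1 := by
  cases b <;> simp [sg]

lemma sg_ne (a a' : Bool) (h : a' ≠ a) : sg a * sg a' = -1 := by
  cases a <;> cases a'
  · exact absurd rfl h
  · simp [sg]
  · simp [sg]
  · exact absurd rfl h

lemma fn_A (h z r : ℝ) (e e' : ℝ) (d g : ℝ) : fn h z r e d g (pt 0 0 (e' * h)) = e * e' * h := by
  rw [fn_pt]; ring

lemma fn_B (h z r : ℝ) (hr : 0 < r) (e d g d' : ℝ) :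
    fn h z r e d g (pt (d' * r) 0 z) = d * d' * (h - e * z) + e * z := by
  rw [fn_pt]; field_simp; ring

lemma fn_C (h z r : ℝ) (hr : 0 < r) (e d g g' : ℝ) :
    fn h z r e d g (pt 0 (g' * r) (-z)) = g * g' * (h + e * z) - e * z := by
  rw [fn_pt]; field_simp; ring

lemma tri_fn (h z r : ℝ) (hr : 0 < r) (s : Bool × Bool × Bool) (x : E3) (hx : x ∈ tri h z r s) :
    fn h z r (sg s.1) (sg s.2.1) (sg s.2.2) x = h := by
  have hc : Convex ℝ {x : E3 | fn h z r (sg s.1) (sg s.2.1) (sg s.2.2) x = h} :=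
    convex_hyperplane (fn h z r (sg s.1) (sg s.2.1) (sg s.2.2)).toLinearMap.isLinear h
  have hsub : tri h z r s ⊆ {x : E3 | fn h z r (sg s.1) (sg s.2.1) (sg s.2.2) x = h} := by
    apply convexHull_min _ hc
    intro v hv
    simp only [Set.mem_insert_iff, Set.mem_singleton_iff] at hv
    rcases hv with rfl | rfl | rfl
    · change fn _ _ _ _ _ _ _ = h
      rw [fn_A, sq_sg]; ring
    · change fn _ _ _ _ _ _ _ = h
      rw [fn_B _ _ _ hr, sq_sg]; ring
    · change fn _ _ _ _ _ _ _ = h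
      rw [fn_C _ _ _ hr, sq_sg]; ring
  exact hsub hx

lemma verts_fn (h z r : ℝ) (hh : 0 < h) (hz : 0 ≤ z) (hzh : z < h) (hr : 0 < r)
    (s : Bool × Bool × Bool) (v : E3) (hv : v ∈ verts h z r) :
    fn h z r (sg s.1) (sg s.2.1) (sg s.2.2) v < h ∨
      (v = pt 0 0 (sg s.1 * h) ∨ v = pt (sg s.2.1 * r) 0 z ∨ v = pt 0 (sg s.2.2 * r) (-z)) := by
  obtain ⟨a, b, c⟩ := s
  rw [mem_verts] at hv
  have hA : ∀ a' : Bool, fn h z r (sg a) (sg b) (sg c) (pt 0 0 (sg a' * h)) < h ∨ a' = a := by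
    intro a'
    by_cases hc : a' = a
    · exact Or.inr hc
    · left
      rw [fn_A]
      have := sg_ne a a' hc
      rw [this]; linarith
  have hB : ∀ b' : Bool, fn h z r (sg a) (sg b) (sg c) (pt (sg b' * r) 0 z) < h ∨ b' = b := by
    intro b'
    by_cases hc : b' = b
    · exact Or.inr hc
    · left
      rw [fn_B _ _ _ hr]
      have := sg_ne b b' hc
      rw [this]
      rcases sg_or a with h1 | h1 <;> rw [h1] <;> nlinarith
  have hC : ∀ c' : Bool, fn h z r (sg a) (sg b) (sg c) (pt 0 (sg c' * r) (-z)) < h ∨ c' = c := by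
    intro c'
    by_cases hc : c' = c
    · exact Or.inr hc
    · left
      rw [fn_C _ _ _ hr]
      have := sg_ne c c' hc
      rw [this]
      rcases sg_or a with h1 | h1 <;> rw [h1] <;> nlinarith
  have st : sg true = 1 := rfl
  have sf : sg false = -1 := rfl
  rcases hv with rfl | rfl | rfl | rfl | rfl | rfl
  · have := hA true
    rw [st, one_mul] at this
    rcases this with h1 | h1
    · exact Or.inl h1
    · right; left; rw [← h1, st, one_mul]
  · have := hA false
    rw [sf, neg_one_mul] at this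
    rcases this with h1 | h1
    · exact Or.inl h1
    · right; left; rw [← h1, sf, neg_one_mul]
  · have := hB true
    rw [st, one_mul] at this
    rcases this with h1 | h1
    · exact Or.inl h1
    · right; right; left; rw [← h1, st, one_mul]
  · have := hB false
    rw [sf, neg_one_mul] at this
    rcases this with h1 | h1
    · exact Or.inl h1
    · right; right; left; rw [← h1, sf, neg_one_mul]
  · have := hC true
    rw [st, one_mul] at this
    rcases this with h1 | h1
    · exact Or.inl h1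
    · right; right; right; rw [← h1, st, one_mul]
  · have := hC false
    rw [sf, neg_one_mul] at this
    rcases this with h1 | h1
    · exact Or.inl h1
    · right; right; right; rw [← h1, sf, neg_one_mul]

lemma tri_sub (h z r : ℝ) (s : Bool × Bool × Bool) :
    ({pt 0 0 (sg s.1 * h), pt (sg s.2.1 * r) 0 z, pt 0 (sg s.2.2 * r) (-z)} : Set E3) ⊆
      (verts h z r : Set E3) := by
  intro v hv
  rw [Finset.mem_coe, mem_verts]
  simp only [Set.mem_insert_iff, Set.mem_singleton_iff] at hv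
  rcases hv with rfl | rfl | rfl
  · rcases sg_or s.1 with h1 | h1 <;> rw [h1] <;> simp
  · rcases sg_or s.2.1 with h1 | h1 <;> rw [h1] <;> simp
  · rcases sg_or s.2.2 with h1 | h1 <;> rw [h1] <;> simp

lemma rank_tri (h z r : ℝ) (hr : 0 < r) (s : Bool × Bool × Bool) :
    finrank ℝ (vectorSpan ℝ (tri h z r s)) = 2 := by
  have hs0 : ∀ b : Bool, sg b ≠ 0 := by
    intro b; cases b <;> simp [sg]
  have hai : AffineIndependent ℝ ![pt 0 0 (sg s.1 * h), pt (sg s.2.1 * r) 0 z,
      pt 0 (sg s.2.2 * r) (-z)] := by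
    rw [affineIndependent_iff_not_collinear_set]
    intro hc
    rw [collinear_iff_of_mem (p₀ := pt 0 0 (sg s.1 * h)) (by simp)] at hc
    obtain ⟨v, hv⟩ := hc
    obtain ⟨r1, h1⟩ := hv (pt (sg s.2.1 * r) 0 z) (by simp)
    obtain ⟨r2, h2⟩ := hv (pt 0 (sg s.2.2 * r) (-z)) (by simp)
    have a0 := congrArg (fun u : E3 => u 0) h1
    have a1 := congrArg (fun u : E3 => u 1) h1
    have b1 := congrArg (fun u : E3 => u 1) h2
    simp [pt] at a0 a1 b1
    rcases a1 with h3 | h3
    · rw [h3] at a0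
      simp at a0
      rcases a0 with h4 | h4
      · exact hs0 _ h4
      · exact hr.ne' h4
    · rw [h3] at b1
      simp at b1
      rcases b1 with h4 | h4
      · exact hs0 _ h4
      · exact hr.ne' h4
  have := hai.finrank_vectorSpan (n := 2) (by simp)
  have hset : ({pt 0 0 (sg s.1 * h), pt (sg s.2.1 * r) 0 z, pt 0 (sg s.2.2 * r) (-z)} : Set E3) =
      Set.range ![pt 0 0 (sg s.1 * h), pt (sg s.2.1 * r) 0 z, pt 0 (sg s.2.2 * r) (-z)] := by
    ext x
    constructor
    · intro hx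
      simp only [Set.mem_insert_iff, Set.mem_singleton_iff] at hx
      rcases hx with rfl | rfl | rfl
      exacts [⟨0, rfl⟩, ⟨1, rfl⟩, ⟨2, rfl⟩]
    · rintro ⟨i, rfl⟩
      fin_cases i <;> simp
  rw [tri, ← direction_affineSpan, affineSpan_convexHull, direction_affineSpan, hset]
  exact this

lemma isTwoFace_tri (h z r : ℝ) (hh : 0 < h) (hz : 0 ≤ z) (hzh : z < h) (hr : 0 < r)
    (s : Bool × Bool × Bool) :
    IsTwoFace (convexHull ℝ (verts h z r : Set E3)) (tri h z r s) := by
  have hle : ∀ y ∈ convexHull ℝ (verts h z r : Set E3),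
      fn h z r (sg s.1) (sg s.2.1) (sg s.2.2) y ≤ h := by
    have hc : Convex ℝ {x : E3 | fn h z r (sg s.1) (sg s.2.1) (sg s.2.2) x ≤ h} :=
      convex_halfSpace_le (fn h z r (sg s.1) (sg s.2.1) (sg s.2.2)).toLinearMap.isLinear h
    intro y hy
    refine convexHull_min (t := {x : E3 | fn h z r (sg s.1) (sg s.2.1) (sg s.2.2) x ≤ h})
      ?_ hc hy
    intro v hv
    rcases verts_fn h z r hh hz hzh hr s v hv with h1 | h1
    · exact h1.le
    · exact (tri_fn h z r hr s v (subset_convexHull ℝ _ (by simpa using h1))).le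
  have hAtri : pt 0 0 (sg s.1 * h) ∈ tri h z r s := subset_convexHull ℝ _ (by simp)
  refine ⟨fun _ => ⟨fn h z r (sg s.1) (sg s.2.1) (sg s.2.2), ?_⟩, ⟨_, hAtri⟩,
    rank_tri h z r hr s⟩
  ext x
  constructor
  · intro hx
    refine ⟨convexHull_mono (tri_sub h z r s) hx, fun y hy => ?_⟩
    rw [tri_fn h z r hr s x hx]
    exact hle y hy
  · rintro ⟨hx, hmax⟩
    have h1 : fn h z r (sg s.1) (sg s.2.1) (sg s.2.2) x = h := by
      apply le_antisymm (hle x hx)
      have := hmax _ (convexHull_mono (tri_sub h z r s) hAtri)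
      rwa [tri_fn h z r hr s _ hAtri] at this
    have h2 := mem_hull_of_max (verts h z r)
      (fn h z r (sg s.1) (sg s.2.1) (sg s.2.2)).toLinearMap h
      (fun v hv => hle v (subset_convexHull ℝ _ (Finset.mem_coe.2 hv))) x hx h1
    refine convexHull_mono ?_ h2
    rintro v ⟨hv, hv2⟩
    rcases verts_fn h z r hh hz hzh hr s v hv with h3 | h3
    · exact absurd hv2 h3.ne
    · simpa using h3

lemma tri_injective (h z r : ℝ) (hh : 0 < h) (hz : 0 ≤ z) (hzh : z < h) (hr : 0 < r) :
    Function.Injective (tri h z r) := by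
  intro s s' hss
  have hA : pt 0 0 (sg s.1 * h) ∈ tri h z r s' := by
    rw [← hss]; exact subset_convexHull ℝ _ (by simp)
  have hB : pt (sg s.2.1 * r) 0 z ∈ tri h z r s' := by
    rw [← hss]; exact subset_convexHull ℝ _ (by simp)
  have hC : pt 0 (sg s.2.2 * r) (-z) ∈ tri h z r s' := by
    rw [← hss]; exact subset_convexHull ℝ _ (by simp)
  have eA := tri_fn h z r hr s' _ hA
  have eB := tri_fn h z r hr s' _ hB
  have eC := tri_fn h z r hr s' _ hC
  rw [fn_A] at eA
  rw [fn_B _ _ _ hr] at eB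
  rw [fn_C _ _ _ hr] at eC
  have pB : 0 < h - sg s'.1 * z := by
    rcases sg_or s'.1 with h1 | h1 <;> rw [h1] <;> linarith
  have pC : 0 < h + sg s'.1 * z := by
    rcases sg_or s'.1 with h1 | h1 <;> rw [h1] <;> linarith
  have qA : sg s'.1 * sg s.1 = 1 := by
    have : (sg s'.1 * sg s.1 - 1) * h = 0 := by linarith
    rcases mul_eq_zero.1 this with h1 | h1
    · linarith
    · exact absurd h1 hh.ne'
  have qB : sg s'.2.1 * sg s.2.1 = 1 := by
    have : (sg s'.2.1 * sg s.2.1 - 1) * (h - sg s'.1 * z) = 0 := by linarith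
    rcases mul_eq_zero.1 this with h1 | h1
    · linarith
    · exact absurd h1 pB.ne'
  have qC : sg s'.2.2 * sg s.2.2 = 1 := by
    have : (sg s'.2.2 * sg s.2.2 - 1) * (h + sg s'.1 * z) = 0 := by linarith
    rcases mul_eq_zero.1 this with h1 | h1
    · linarith
    · exact absurd h1 pC.ne'
  exact (Prod.ext (sg_eq _ _ qA) (Prod.ext (sg_eq _ _ qB) (sg_eq _ _ qC))).symm

/-- The faces are exactly the eight triangles. -/
lemma faces_eq (h z r : ℝ) (hh : 0 < h) (hz : 0 ≤ z) (hzh : z < h) (hr : 0 < r) :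
    {F : Set E3 | IsTwoFace (convexHull ℝ (verts h z r : Set E3)) F} =
      Set.range (tri h z r) := by
  ext F
  constructor
  · intro hF
    obtain ⟨A, B, C, hA, hB, hC, rfl⟩ := face_eq h z r hh hz hzh hr F hF
    obtain ⟨a, rfl⟩ : ∃ s : Bool, A = pt 0 0 (sg s * h) := by
      rcases hA with rfl | rfl
      · exact ⟨true, by simp [sg]⟩
      · exact ⟨false, by simp [sg]⟩
    obtain ⟨b, rfl⟩ : ∃ s : Bool, B = pt (sg s * r) 0 z := by
      rcases hB with rfl | rfl
      · exact ⟨true, by simp [sg]⟩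
      · exact ⟨false, by simp [sg]⟩
    obtain ⟨c, rfl⟩ : ∃ s : Bool, C = pt 0 (sg s * r) (-z) := by
      rcases hC with rfl | rfl
      · exact ⟨true, by simp [sg]⟩
      · exact ⟨false, by simp [sg]⟩
    exact ⟨(a, b, c), rfl⟩
  · rintro ⟨s, rfl⟩
    exact isTwoFace_tri h z r hh hz hzh hr s

/-- There are exactly eight faces. -/
lemma ncard_faces (h z r : ℝ) (hh : 0 < h) (hz : 0 ≤ z) (hzh : z < h) (hr : 0 < r) :
    {F : Set E3 | IsTwoFace (convexHull ℝ (verts h z r : Set E3)) F}.ncard = 8 := by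
  rw [faces_eq h z r hh hz hzh hr, Set.ncard_def, ← Set.image_univ,
    (tri_injective h z r hh hz hzh hr).encard_image]
  simp [Set.encard_univ]

end Pool.Agent.Y750.TR.Eight
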